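import Pool.Agent.Work.MP_8c604c_gt.Q.AlgH

/-!
Power series in two variables with nonnegative coefficients.
-/

noncomputable section

namespace Pool.Agent.Work.MP_8c604c_gt.Q

open Finset PowerSeries

/-- Real power series in two variables. -/
abbrev R2 : Type := ℝ⟦X⟧⟦X⟧

/-- The inner variable. -/
def U : R2 := C X

/-- The coefficient of `U ^ r X ^ k`. -/
def co (r k : ℕ) : R2 →+ ℝ := (coeff r).toAddMonoidHom.comp (coeff (R := ℝ⟦X⟧) k).toAddMonoidHom

theorem co_def (r k : ℕ) (f : R2) : co r k f = coeff r (coeff k f) := rfl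

theorem co_mul (r k : ℕ) (f g : R2) : co r k (f * g) =
    ∑ p ∈ antidiagonal k, ∑ q ∈ antidiagonal r, co q.1 p.1 f * co q.2 p.2 g := by
  simp only [co_def, coeff_mul, map_sum]

@[simp] theorem co_X_succ (r k : ℕ) (f : R2) : co r (k + 1) (X * f) = co r k f := by
  simp [co_def, coeff_succ_X_mul]

@[simp] theorem co_X_zero (r : ℕ) (f : R2) : co r 0 (X * f) = 0 := by
  simp [co_def]

@[simp] theorem co_U_succ (r k : ℕ) (f : R2) : co (r + 1) k (U * f) = co r k f := by
  simp [co_def, U, coeff_succ_X_mul]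

@[simp] theorem co_U_zero (k : ℕ) (f : R2) : co 0 k (U * f) = 0 := by
  simp [co_def, U]

theorem co_CC (r k : ℕ) (c : ℝ) (f : R2) : co r k (C (C c) * f) = c * co r k f := by
  simp [co_def]

theorem co_one (r k : ℕ) : co r k 1 = if r = 0 ∧ k = 0 then 1 else 0 := by
  by_cases h : k = 0 <;> simp [co_def, coeff_one, h]

theorem co_U_pow (r k j : ℕ) (f : R2) :
    co r k (U ^ j * f) = if j ≤ r then co (r - j) k f else 0 := by
  rw [co_def, U, ← map_pow, coeff_C_mul, coeff_X_pow_mul']
  rfl

theorem co_ev (r k : ℕ) (f : P2) :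
    co r k (ev U X f) = (MvPolynomial.coeff (ex r k) f : ℤ) := by
  induction f using MvPolynomial.induction_on' with
  | monomial d c =>
    rw [ev_mon, map_zsmul, co_U_pow, MvPolynomial.coeff_monomial]
    simp only [co_def, coeff_X_pow, eq_ex]
    by_cases h1 : d 0 = r <;> by_cases h2 : d 1 = k
    · simp [h1, h2]
    · simp [h2, Ne.symm h2]
    · by_cases h3 : d 0 ≤ r
      · simp [h1, h2, h3, coeff_one]; omega
      · simp [h1, h3]
    · simp [h2, Ne.symm h2]
  | add p q hp hq => simp [hp, hq]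

/-- Order at least `m`. -/
def Ord (m : ℕ) (f : R2) : Prop := ∀ r k, r + k < m → co r k f = 0

theorem Ord.mul {m m' : ℕ} {f g : R2} (hf : Ord m f) (hg : Ord m' g) : Ord (m + m') (f * g) :=
  fun r k h => by
    rw [co_mul]
    refine sum_eq_zero fun p hp => sum_eq_zero fun q hq => ?_
    rw [HasAntidiagonal.mem_antidiagonal] at hp hq
    by_cases hc : q.1 + p.1 < m
    · rw [hf _ _ hc, zero_mul]
    · rw [hg _ _ (by omega), mul_zero]

theorem ord_zero (f : R2) : Ord 0 f := fun _ _ h => absurd h (by omega)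

theorem Ord.pow {f : R2} (hf : Ord 1 f) : ∀ m, Ord m (f ^ m)
  | 0 => ord_zero _
  | m + 1 => by rw [pow_succ]; exact (hf.pow m).mul hf

theorem ord_ev {f : P2} {m : ℕ} (hf : f.IsHomogeneous m) : Ord m (ev U X f) := fun r k h => by
  rw [co_ev, hf.coeff_eq_zero (by rw [degree_two]; simp; omega), Int.cast_zero]

/-- Nonnegative series in `X` and `U X`. -/
def Pos (f : R2) : Prop := ∀ r k, 0 ≤ co r k f ∧ (k < r → co r k f = 0)

theorem Pos.mul {f g : R2} (hf : Pos f) (hg : Pos g) : Pos (f * g) := fun r k => by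
  rw [co_mul]
  refine ⟨sum_nonneg fun p _ => sum_nonneg fun q _ => mul_nonneg (hf _ _).1 (hg _ _).1, fun h =>
    sum_eq_zero fun p hp => sum_eq_zero fun q hq => ?_⟩
  rw [HasAntidiagonal.mem_antidiagonal] at hp hq
  by_cases hc : p.1 < q.1
  · rw [(hf _ _).2 hc, zero_mul]
  · rw [(hg _ _).2 (by omega), mul_zero]

theorem pos_one : Pos 1 := fun r k => by
  rw [co_one]
  split_ifs with h
  · exact ⟨zero_le_one, fun h' => by omega⟩
  · simp

theorem Pos.add {f g : R2} (hf : Pos f) (hg : Pos g) : Pos (f + g) := fun r k => by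
  rw [map_add]
  exact ⟨add_nonneg (hf _ _).1 (hg _ _).1, fun h => by rw [(hf _ _).2 h, (hg _ _).2 h, add_zero]⟩

theorem Pos.pow {f : R2} (hf : Pos f) : ∀ m, Pos (f ^ m)
  | 0 => by simpa using pos_one
  | m + 1 => by rw [pow_succ]; exact (hf.pow m).mul hf

theorem Pos.X_mul {f : R2} (hf : Pos f) : Pos (X * f) := fun r k => by
  cases k with
  | zero => simp
  | succ k => rw [co_X_succ]; exact ⟨(hf _ _).1, fun h => (hf _ _).2 (by omega)⟩

theorem Pos.UX_mul {f : R2} (hf : Pos f) : Pos (X * (U * f)) := fun r k => by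
  cases k with
  | zero => simp
  | succ k =>
    cases r with
    | zero => simp
    | succ r => rw [co_X_succ, co_U_succ]; exact ⟨(hf _ _).1, fun h => (hf _ _).2 (by omega)⟩

theorem exists_inv (x : R2) : ∃ h, h * (1 - X * x) = 1 :=
  ⟨invOfUnit (1 - X * x) 1, invOfUnit_mul _ _ (by simp)⟩

theorem pos_inv {x h : R2} (hx : Pos (X * x)) (hh : h * (1 - X * x) = 1) : Pos h := by
  have e : h = 1 + X * x * h := by linear_combination hh
  intro r k
  induction k using Nat.strong_induction_on generalizing r with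
  | _ k ih =>
    have key : ∀ p ∈ antidiagonal k, ∀ q ∈ antidiagonal r,
        0 ≤ co q.1 p.1 (X * x) * co q.2 p.2 h ∧
          (k < r → co q.1 p.1 (X * x) * co q.2 p.2 h = 0) := fun p hp q hq => by
      rw [HasAntidiagonal.mem_antidiagonal] at hp hq
      rcases Nat.eq_zero_or_pos p.1 with h0 | h0
      · simp [h0]
      · refine ⟨mul_nonneg (hx _ _).1 (ih _ (by omega) _).1, fun hk => ?_⟩
        by_cases hc : p.1 < q.1
        · rw [(hx _ _).2 hc, zero_mul]
        · rw [(ih _ (by omega) _).2 (by omega), mul_zero]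
    rw [e, map_add, co_mul]
    refine ⟨add_nonneg (pos_one _ _).1
      (sum_nonneg fun p hp => sum_nonneg fun q hq => (key p hp q hq).1), fun hk => ?_⟩
    rw [(pos_one _ _).2 hk, zero_add]
    exact sum_eq_zero fun p hp => sum_eq_zero fun q hq => (key p hp q hq).2 hk

/-- The coefficients along a diagonal grow at least like those of `(1 - X) ^ (-m)`. -/
def Mono (m : ℕ) (f : R2) : Prop :=
  ∀ r i : ℕ, (i + m) * co r (i + r) f ≤ (i + 1) * co r (i + 1 + r) f

theorem mono_pow {I f : R2} (hI : I * (1 - X * 1) = 1) (hf : Pos f) :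
    ∀ m, Mono (m + 1) (I ^ (m + 1) * f) := by
  have hP : Pos I := pos_inv pos_one.X_mul hI
  have rec1 : ∀ (g : R2) r k, co r (k + 1) (I * g) = co r (k + 1) g + co r k (I * g) := by
    intro g r k
    have : I * g = g + X * (I * g) := by linear_combination g * hI
    conv_lhs => rw [this, map_add, co_X_succ]
  have rec0 : ∀ g : R2, Pos g → ∀ r, co r r (I * g) = co r r g := by
    intro g hg r
    have : I * g = g + X * (I * g) := by linear_combination g * hI
    cases r with
    | zero => conv_lhs => rw [this, map_add, co_X_zero, add_zero]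
    | succ r => rw [rec1, ((hP.mul hg) _ _).2 (by omega), add_zero]
  intro m
  induction m with
  | zero =>
    intro r i
    rw [zero_add, pow_one, show i + 1 + r = i + r + 1 by ring, rec1]
    have := (hf r (i + r + 1)).1
    push_cast
    nlinarith
  | succ m ih =>
    have hg : Pos (I ^ (m + 1) * f) := (hP.pow _).mul hf
    rw [pow_succ', mul_assoc]
    generalize I ^ (m + 1) * f = g at ih hg
    have aux : ∀ r i : ℕ, ((m + 1 : ℕ) : ℝ) * co r (i + r) (I * g) ≤
        (i + 1) * co r (i + 1 + r) g := by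
      intro r i
      induction i with
      | zero => have := ih r 0; rw [zero_add, rec0 g hg]; simpa using this
      | succ i h =>
        have := ih r (i + 1)
        rw [show i + 1 + r = i + r + 1 by ring] at this h ⊢
        rw [rec1]
        push_cast at this h ⊢
        nlinarith
    intro r i
    have := aux r i
    rw [show i + 1 + r = i + r + 1 by ring] at this ⊢
    rw [rec1]
    push_cast at this ⊢
    nlinarith

theorem Mono.ratio {m : ℕ} {f : R2} (h : Mono (m + 1) f) (hf : Pos f) (r i : ℕ) : ∀ j : ℕ,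
    ((m + (i + j)).choose m : ℝ) * co r (i + r) f ≤ ((m + i).choose m : ℝ) * co r (i + j + r) f
  | 0 => by simp
  | j + 1 => by
    have ih := h.ratio hf r i j
    have h1 := h r (i + j)
    have h2 : ((m + (i + j)).choose m : ℝ) * (m + (i + j) + 1) =
        (m + (i + (j + 1))).choose m * (i + j + 1) := by
      have := Nat.choose_mul_succ_eq (m + (i + j)) m
      rw [show m + (i + j) + 1 - m = i + j + 1 by omega] at this
      exact_mod_cast this
    have h3 : (0 : ℝ) ≤ (m + i).choose m := Nat.cast_nonneg _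
    have h4 : (0 : ℝ) < i + j + 1 := by positivity
    refine le_of_mul_le_mul_left ?_ h4
    push_cast at h1
    rw [show i + (j + 1) + r = i + j + 1 + r by ring]
    have h5 := mul_le_mul_of_nonneg_left h1 h3
    have h6 := mul_le_mul_of_nonneg_left ih (show (0 : ℝ) ≤ m + (i + j) + 1 by positivity)
    have h7 := congrArg (· * co r (i + r) f) h2
    linarith

/-- The inverse of `(1 - X - U X) ^ 2 - 4 U X ^ 2`. -/
theorem exists_G : ∃ G : R2, G * ((1 - X - U * X) ^ 2 - 4 * U * X ^ 2) = 1 ∧ Pos G ∧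
    ∀ l m : ℕ, m < 2 * l → Mono (m + 1) (G ^ l) := by
  obtain ⟨I, hI⟩ := exists_inv 1
  have pI : Pos I := pos_inv pos_one.X_mul hI
  obtain ⟨J, hJ⟩ := exists_inv (U * I)
  have pJ : Pos J := pos_inv pI.UX_mul hJ
  obtain ⟨H, hH⟩ := exists_inv (U * (X * ((I * J) ^ 2 + (I * J) ^ 2 + (I * J) ^ 2 + (I * J) ^ 2)))
  have p2 := (pI.mul pJ).pow 2
  have pH : Pos H := pos_inv (((p2.add p2).add p2).add p2).X_mul.UX_mul hH
  have e1 : I * J * (1 - X - U * X) = 1 := by linear_combination hJ + J * hI
  refine ⟨(I * J) ^ 2 * H, ?_, p2.mul pH, fun l m hm => ?_⟩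
  · linear_combination hH + H * (I * J * (1 - X - U * X) + 1) * e1
  · obtain ⟨k, hk⟩ : ∃ k, 2 * l = m + 1 + k := ⟨2 * l - (m + 1), by omega⟩
    have : ((I * J) ^ 2 * H) ^ l = I ^ (m + 1) * (I ^ k * (J ^ 2 * H) ^ l) := by
      rw [← mul_assoc, ← pow_add, ← hk]; ring
    rw [this]
    exact mono_pow hI ((pI.pow _).mul (((pJ.pow 2).mul pH).pow _)) m

end Pool.Agent.Work.MP_8c604c_gt.Q
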