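import Pool.Agent.Work.MP_8c604c_gt.Q.AlgN

/-!
The bound for the Weinstein number in the cohomology ring of the sphere bundle over the space of
geodesics.
-/

noncomputable section

namespace Pool.Agent.Work.MP_8c604c_gt.Q

open Finset Polynomial

variable {B : Type*} [CommRing B] [Algebra ℂ B] {n : ℕ}

theorem weinstein_key {A : Type*} [CommRing A] (hn : 2 ≤ n) {y1 y2 E : A} {al la : ℤ}
    (h1 : y1 ^ (n + 1) = 0) (h2 : y2 ^ (n + 1) = 0)
    (hh : ∑ i ∈ range (n + 1), y1 ^ i * y2 ^ (n - i) = 0)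
    (hE : la * E ^ 2 = al * (y1 + y2) * E + (y1 - y2) ^ 2) (hl0 : la ≠ 0) (hal2 : |al| ≤ 2 * |la|) :
    ∃ c : ℤ, |c| ≤ |la| ^ (2 * n - 2) * (((4 * n).choose (2 * n) : ℤ) - (4 * n).choose (2 * n - 1)) ∧
      la ^ (2 * n - 2) • ((y1 - y2) * E ^ (2 * n - 1)) = c • (E * (y1 ^ n * y2 ^ (n - 1))) := by
  let p : P2 := MvPolynomial.C al * (MvPolynomial.X 0 + MvPolynomial.X 1)
  let q : P2 := MvPolynomial.C la * (MvPolynomial.X 0 - MvPolynomial.X 1) ^ 2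
  have hp : p.IsHomogeneous 1 := hom_s.C_mul _
  have hq : q.IsHomogeneous 2 := (hom_d.pow 2).C_mul _
  have hr := pow_red hE (2 * n - 3)
  rw [show 2 * n - 3 + 1 = 2 * n - 2 by omega, show 2 * n - 3 + 2 = 2 * n - 1 by omega] at hr
  have ev1 : ∀ m, ev y1 y2 (sq p q m) = sq ((al : A) * (y1 + y2)) (la * (y1 - y2) ^ 2) m := by
    intro m; rw [map_sq]; simp [p, q]
  have z1 := hom_zero h1 h2 hh
    (f := (MvPolynomial.X 0 - MvPolynomial.X 1) ^ 3 * sq p q (2 * n - 3)) (by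
      convert (hom_d.pow 3).mul (hom_sq hp hq (2 * n - 3)) using 1; omega)
  have hf : ((MvPolynomial.X 0 - MvPolynomial.X 1) * sq p q (2 * n - 2)).IsHomogeneous
      (2 * n - 1) := by
    convert hom_d.mul (hom_sq hp hq (2 * n - 2)) using 1; omega
  have z2 := hom_eval (by omega) h1 h2 hh hf
  have z3 := deh (m := 2 * n) (i := n) (by
    convert hom_d'.mul hf using 1; omega) (by omega)
  rw [show 2 * n - n = n by omega] at z3
  rw [← z3] at z2
  have hm := major (n := n) hl0 hal2 (2 * n - 2) 0 1 (by omega)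
  have e3 : ev (X : ℤ[X]) 1 ((MvPolynomial.X 1 - MvPolynomial.X 0) *
      ((MvPolynomial.X 0 - MvPolynomial.X 1) * sq p q (2 * n - 2))) =
      (X + 1 : ℤ[X]) ^ 0 * (-(X - 1) ^ 2) ^ 1 *
        sq (C al * (X + 1)) (C la * (X - 1) ^ 2) (2 * n - 2) := by
    rw [map_mul, map_mul, map_sq]
    simp [p, q]
    ring
  rw [e3] at z2
  rw [pow_zero, one_mul, pow_one] at hm z2
  rw [std_value (by omega)] at hm
  refine ⟨_, hm, ?_⟩
  simp only [map_mul, map_pow, map_sub, ev_X0, ev_X1, ev1] at z1 z2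
  rw [← mul_smul_comm _ E, ← z2, zsmul_eq_mul]
  push_cast
  linear_combination (y1 - y2) * hr + z1

/-- The Weinstein number `N` is at most the Catalan number of index `2 n`. -/
theorem weinstein_fin (hn : 2 ≤ n) {y1 y2 e z μ : B} {a d b : ℤ} {N : ℂ}
    (h1 : y1 ^ (n + 1) = 0) (h2 : y2 ^ (n + 1) = 0)
    (hh : ∑ i ∈ range (n + 1), y1 ^ i * y2 ^ (n - i) = 0) (hμ : μ * e = y2 - y1)
    (hd : μ = (d : ℂ) • z) (hz : z ^ 2 = (a : ℂ) • (y1 + y2) + (b : ℂ) • e ^ 2)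
    (hN : e ^ (4 * n - 1) = N • (μ * (y1 ^ n * y2 ^ (n - 1)))) (ne : z * e ^ (4 * n - 1) ≠ 0)
    (ha : |a| ≤ 2) : ‖N‖ ≤ ((4 * n).choose (2 * n) : ℝ) - (4 * n).choose (2 * n - 1) := by
  have t0 : y1 ^ n * y2 ^ n = 0 := top_zero h1 h2 hh
  obtain ⟨m, rfl⟩ : ∃ m, n = m + 1 := ⟨n - 1, by omega⟩
  simp only [Int.cast_smul_eq_zsmul, zsmul_eq_mul] at hd hz
  rw [Nat.add_sub_cancel] at hN
  set κ := e ^ 2 * (y1 ^ (m + 1) * y2 ^ m) with hκ
  have k1 : z ^ 2 * (y1 ^ (m + 1) * y2 ^ m) = b * κ := by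
    linear_combination (y1 ^ (m + 1) * y2 ^ m) * hz + a * y2 ^ m * h1 + a * t0
  have k2 : z * e ^ (4 * (m + 1) - 1) = (N * (d * b : ℤ)) • κ := by
    rw [hN, mul_smul_comm, mul_smul, Int.cast_smul_eq_zsmul, zsmul_eq_mul]
    congr 1
    push_cast
    linear_combination z * (y1 ^ (m + 1) * y2 ^ m) * hd + d * k1
  have kκ : κ ≠ 0 := fun k => ne (by rw [k2, k, smul_zero])
  have kd : d * b ≠ 0 := fun k => ne (by rw [k2, k]; simp)
  have hb1 : 1 ≤ |b| := Int.one_le_abs (right_ne_zero_of_mul kd)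
  have hl0 : b * d ^ 2 ≠ 0 := mul_ne_zero (right_ne_zero_of_mul kd)
    (pow_ne_zero _ (left_ne_zero_of_mul kd))
  obtain ⟨c, c1, c2⟩ := weinstein_key hn h1 h2 hh (E := e ^ 2) (al := -(a * d ^ 2)) (la := b * d ^ 2)
    (by
      push_cast
      linear_combination (-(d : B) ^ 2 * e ^ 2) * hz - (d * z * e + μ * e) * e * hd +
        (μ * e + y2 - y1) * hμ) hl0
    (by
      rw [abs_neg, abs_mul, abs_mul]
      nlinarith [abs_nonneg (d ^ 2), abs_nonneg a])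
  set la := b * d ^ 2 with hla
  rw [Nat.add_sub_cancel, ← hκ] at c2
  have k3 : (y1 - y2) * (e ^ 2) ^ (2 * (m + 1) - 1) = (-(N * la)) • κ := by
    have : (y1 - y2) * (e ^ 2) ^ (2 * (m + 1) - 1) = -(μ * e ^ (4 * (m + 1) - 1)) := by
      rw [← pow_mul, show 4 * (m + 1) - 1 = 2 * (2 * (m + 1) - 1) + 1 by omega]
      linear_combination (e ^ (2 * (2 * (m + 1) - 1))) * hμ
    rw [this, hd, mul_assoc, k2, neg_smul, ← zsmul_eq_mul, ← Int.cast_smul_eq_zsmul ℂ, smul_smul, hla]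
    congr 2
    push_cast
    ring
  rw [k3, ← Int.cast_smul_eq_zsmul ℂ, ← Int.cast_smul_eq_zsmul ℂ, smul_smul] at c2
  have k4 := congrArg norm (smul_left_injective ℂ kκ c2)
  simp only [norm_mul, norm_neg, Complex.norm_intCast, Int.cast_pow, norm_pow] at k4
  have hl1 : (1 : ℝ) ≤ |(la : ℝ)| := by exact_mod_cast Int.one_le_abs hl0
  have c1' : |(c : ℝ)| ≤ |(la : ℝ)| ^ (2 * (m + 1) - 2) *
      (((4 * (m + 1)).choose (2 * (m + 1)) : ℝ) - (4 * (m + 1)).choose (2 * (m + 1) - 1)) := by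
    exact_mod_cast c1
  rw [← k4] at c1'
  have := le_of_mul_le_mul_left c1' (by positivity)
  nlinarith [norm_nonneg N]

/-- The coefficients are integers. -/
theorem int_of_zeta {y1 y2 e z μ ζ : B} {d β : ℂ} {j s t : ℤ} (hμ : μ * e = y2 - y1)
    (hd : μ = d • z) (hz : z ^ 2 = (-2 : ℂ) • (y1 + y2) + β • e ^ 2)
    (h2 : (2 : ℂ) • ζ = z + (j : ℂ) • e) (hζ : ζ ^ 2 + y1 = e * ((s : ℂ) • e + (t : ℂ) • ζ))
    (ind : ∀ s t : ℂ, (s • e + t • z) * e = 0 → s = 0 ∧ t = 0) :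
    d = (j - t : ℤ) ∧ β = (4 * s + 2 * t * j - j ^ 2 : ℤ) := by
  obtain ⟨k1, k2⟩ := ind (β + j ^ 2 - 4 * s - 2 * t * j) (2 * j - 2 * d - 2 * t) (by
    simp only [Algebra.smul_def, map_sub, map_add, map_mul, map_pow, map_ofNat, map_neg,
      map_intCast] at *
    linear_combination 4 * hζ - hz - (2 * ζ + z + j * e - 2 * t * e) * h2 - 2 * hμ + 2 * e * hd)
  push_cast
  exact ⟨by linear_combination (-1 / 2 : ℂ) * k2, by linear_combination k1⟩

end Pool.Agent.Work.MP_8c604c_gt.Q
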