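import Pool.Agent.Work.MP_8c604c_gt.Q.AlgN

/-!
The bound for the Weinstein number, normalised by `y1 ^ n * y2 ^ n` (complex coefficients; the
relation `h_n (y1, y2) = 0` only holds after multiplication by `E`).
-/

noncomputable section

namespace Pool.Agent.Work.MP_8c604c_gt.Q

open Finset Polynomial

section Ring

variable {A : Type*} [CommRing A] {u v w : A} {n : ℕ}

theorem hom_top (hu : u ^ (n + 1) = 0) (hv : v ^ (n + 1) = 0) {f : P2}
    (hf : f.IsHomogeneous (2 * n)) :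
    ev u v f = MvPolynomial.coeff (ex n n) f • (u ^ n * v ^ n) := by
  rw [ev_hom u v hf, sum_eq_single n]
  · rw [show 2 * n - n = n by omega]
  · intro i hi h
    rw [mem_range] at hi
    rw [mon_zero hu hv (by omega), smul_zero]
  · intro h
    exact absurd (mem_range.2 (by omega)) h

theorem top_anti' (hn : 1 ≤ n) (hu : u ^ (n + 1) = 0) (hv : v ^ (n + 1) = 0)
    (hh : w * ∑ i ∈ range (n + 1), u ^ i * v ^ (n - i) = 0) :
    w * (u ^ (n - 1) * v ^ n) = -(w * (u ^ n * v ^ (n - 1))) := by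
  have h : u ^ (n - 1) * ∑ i ∈ range (n + 1), u ^ i * v ^ (n - i) =
      u ^ (n - 1) * v ^ n + u ^ n * v ^ (n - 1) := by
    rw [mul_sum, sum_eq_add_of_mem 0 1 (by simp) (by simp; omega) (by simp)]
    · rw [← mul_assoc, ← mul_assoc, ← pow_add, ← pow_add, show n - 1 + 1 = n by omega]
      simp
    · intro i hi h0
      rw [← mul_assoc, ← pow_add]
      exact mon_zero hu hv (Or.inl (by omega))
  linear_combination u ^ (n - 1) * hh - w * h

theorem hom_eval' (hn : 1 ≤ n) (hu : u ^ (n + 1) = 0) (hv : v ^ (n + 1) = 0)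
    (hh : w * ∑ i ∈ range (n + 1), u ^ i * v ^ (n - i) = 0) {f : P2}
    (hf : f.IsHomogeneous (2 * n - 1)) :
    w * ev u v f = MvPolynomial.coeff (ex n n) ((MvPolynomial.X 1 - MvPolynomial.X 0) * f) •
      (w * (u ^ n * v ^ (n - 1))) := by
  rw [ev_hom u v hf, coeff_sub_mul hn,
    sum_eq_add_of_mem n (n - 1) (by simp; omega) (by simp; omega) (by omega)]
  · rw [show 2 * n - 1 - n = n - 1 by omega, show 2 * n - 1 - (n - 1) = n by omega, mul_add,
      mul_smul_comm, mul_smul_comm, top_anti' hn hu hv hh, sub_smul, smul_neg, sub_eq_add_neg]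
  · intro i hi h0
    rw [mem_range] at hi
    rw [mon_zero hu hv (by omega), smul_zero]

theorem hn_symm (u v : A) (n : ℕ) : ∑ i ∈ range (n + 1), v ^ i * u ^ (n - i) =
    ∑ i ∈ range (n + 1), u ^ i * v ^ (n - i) := by
  rw [← sum_range_reflect]
  refine sum_congr rfl fun i hi => ?_
  rw [mem_range] at hi
  rw [mul_comm, show n + 1 - 1 - i = n - i by omega, show n - (n - i) = i by omega]

/-- Symmetric polynomials of degree `2 n - 1` are killed by `2 w`. -/
theorem hom_symm (hn : 1 ≤ n) (hu : u ^ (n + 1) = 0) (hv : v ^ (n + 1) = 0)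
    (hh : w * ∑ i ∈ range (n + 1), u ^ i * v ^ (n - i) = 0) {f : P2}
    (hf : f.IsHomogeneous (2 * n - 1)) (hs : ev v u f = ev u v f) : 2 * (w * ev u v f) = 0 := by
  have h1 := hom_eval' hn hu hv hh hf
  have h2 := hom_eval' hn hv hu (by rw [hn_symm]; exact hh) hf
  rw [hs, mul_comm (v ^ n), top_anti' hn hu hv hh, smul_neg] at h2
  rw [two_mul]
  nth_rewrite 1 [h1]
  rw [h2, add_neg_cancel]

end Ring

/-- The Weinstein number `N` is at most the Catalan number of index `2 n`. -/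
theorem weinstein_le' {B : Type*} [CommRing B] [Algebra ℂ B] {n : ℕ} (hn : 1 ≤ n) {y1 y2 E : B}
    {a d b : ℤ} {N : ℂ} (h1 : y1 ^ (n + 1) = 0) (h2 : y2 ^ (n + 1) = 0)
    (hh : E * ∑ i ∈ range (n + 1), y1 ^ i * y2 ^ (n - i) = 0)
    (hE : (b * d ^ 2 : ℤ) * E ^ 2 + (a * d ^ 2 : ℤ) * (y1 + y2) * E = (y1 - y2) ^ 2)
    (hN : E ^ (2 * n) = N • (y1 ^ n * y2 ^ n)) (hz : y1 ^ n * y2 ^ n ≠ 0) (ha : |a| ≤ 2) :
    ‖N‖ ≤ ((4 * n).choose (2 * n) : ℝ) - (4 * n).choose (2 * n - 1) := by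
  have tf : ∀ c : ℂ, c • (y1 ^ n * y2 ^ n) = 0 → c = 0 := fun c h => by
    by_contra hc
    exact hz (by simpa [smul_smul, hc] using congrArg (fun x => c⁻¹ • x) h)
  have two : ∀ x : B, 2 * x = 0 → x = 0 := fun x h => by
    have : (2 : ℂ) • x = 0 := by rw [two_smul, ← two_mul, h]
    simpa using congrArg (fun x => (2 : ℂ)⁻¹ • x) this
  obtain ⟨m, rfl⟩ : ∃ m, n = m + 1 := ⟨n - 1, by omega⟩
  set la : ℤ := b * d ^ 2 with hla
  set al : ℤ := -(a * d ^ 2) with hal
  have hE' : (la : B) * E ^ 2 = (al : B) * (y1 + y2) * E + (y1 - y2) ^ 2 := by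
    rw [hal]; push_cast at hE ⊢; linear_combination hE
  have hl0 : la ≠ 0 := fun h0 => by
    have s1 := two _ (hom_symm hn h1 h2 hh
      (f := (MvPolynomial.X 0 + MvPolynomial.X 1) * (MvPolynomial.X 0 * MvPolynomial.X 1) ^ m)
      (by
        convert hom_s.mul (((MvPolynomial.isHomogeneous_X ℤ (0 : Fin 2)).mul
          (MvPolynomial.isHomogeneous_X ℤ (1 : Fin 2))).pow m) using 1
        omega)
      (by simp [add_comm, mul_comm]))
    simp only [map_mul, map_add, map_pow, ev_X0, ev_X1] at s1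
    rw [h0] at hE'
    refine hz (two _ ?_)
    linear_combination (y1 * y2) ^ m * hE' + (al : B) * s1 + y2 ^ m * h1 + y1 ^ m * h2
  have hb : b ≠ 0 := by rintro rfl; simp at hla; exact hl0 hla
  have hb1 : 1 ≤ |b| := Int.one_le_abs hb
  have hal2 : |al| ≤ 2 * |la| := by
    rw [hal, hla, abs_neg, abs_mul, abs_mul]
    nlinarith [abs_nonneg (d ^ 2), abs_nonneg a]
  let p : P2 := MvPolynomial.C al * (MvPolynomial.X 0 + MvPolynomial.X 1)
  let q : P2 := MvPolynomial.C la * (MvPolynomial.X 0 - MvPolynomial.X 1) ^ 2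
  have hp : p.IsHomogeneous 1 := hom_s.C_mul _
  have hq : q.IsHomogeneous 2 := (hom_d.pow 2).C_mul _
  have hr := pow_red hE' (2 * m)
  have ev1 : ∀ k, ev y1 y2 (sq p q k) = sq ((al : B) * (y1 + y2)) (la * (y1 - y2) ^ 2) k := by
    intro k; rw [map_sq]; simp [p, q]
  have ev2 : ∀ k, ev y2 y1 (sq p q k) = ev y1 y2 (sq p q k) := by
    intro k
    rw [ev1, map_sq]
    simp only [p, q, map_mul, map_add, map_pow, map_sub, ev_X0, ev_X1, ev_C]
    rw [add_comm y2, show (y2 - y1) ^ 2 = (y1 - y2) ^ 2 by ring]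
  have z1 := two _ (hom_symm hn h1 h2 hh (hom_sq hp hq (2 * (m + 1) - 1)) (ev2 _))
  rw [show 2 * (m + 1) - 1 = 2 * m + 1 by omega] at z1
  have hf : (-(MvPolynomial.X 0 - MvPolynomial.X 1) ^ 2 * sq p q (2 * m)).IsHomogeneous
      (2 * (m + 1)) := by
    rw [show 2 * (m + 1) = 1 * 2 + 2 * m by ring]
    exact (hom_d.pow 2).neg.mul (hom_sq hp hq (2 * m))
  have z2 := hom_top h1 h2 hf
  have z3 := deh (i := m + 1) hf (by omega : m + 1 ≤ 2 * (m + 1))
  rw [show 2 * (m + 1) - (m + 1) = m + 1 by omega] at z3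
  rw [← z3] at z2
  have hm := major (n := m + 1) hl0 hal2 (2 * (m + 1) - 2) 0 1 (by clear * -; omega)
  have e3 : ev (X : ℤ[X]) 1 (-(MvPolynomial.X 0 - MvPolynomial.X 1) ^ 2 * sq p q (2 * m)) =
      -(X - 1) ^ 2 * sq (C al * (X + 1)) (C la * (X - 1) ^ 2) (2 * m) := by
    rw [map_mul, map_sq]
    simp [p, q]
  rw [e3] at z2
  rw [pow_zero, one_mul, pow_one, std_value hn, show 2 * (m + 1) - 2 = 2 * m by omega] at hm
  set c := (-(X - 1) ^ 2 * sq (C al * (X + 1 : ℤ[X])) (C la * (X - 1) ^ 2) (2 * m)).coeff (m + 1)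
  simp only [map_mul, map_pow, map_sub, map_neg, ev_X0, ev_X1, ev1] at z1 z2
  have key : ((la : ℂ) ^ (2 * m + 1) * N + c) = 0 := tf _ (by
    rw [add_smul, mul_smul, ← hN, Int.cast_smul_eq_zsmul, ← z2, ← Int.cast_pow,
      Int.cast_smul_eq_zsmul, zsmul_eq_mul]
    push_cast
    linear_combination hr + z1)
  have k3 : (|la| : ℝ) ^ (2 * m + 1) * ‖N‖ = |c| := by
    have := congrArg norm (eq_neg_of_add_eq_zero_left key)
    simpa using this
  have hl1 : (1 : ℝ) ≤ |la| := by exact_mod_cast Int.one_le_abs hl0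
  have hm' : ((|c| : ℤ) : ℝ) ≤ (|la| : ℝ) ^ (2 * m) *
      (((4 * (m + 1)).choose (2 * (m + 1)) : ℝ) - (4 * (m + 1)).choose (2 * (m + 1) - 1)) := by
    exact_mod_cast hm
  have hpos : (0 : ℝ) < (|la| : ℝ) ^ (2 * m) := by positivity
  rw [← k3, pow_succ, mul_assoc] at hm'
  have := le_of_mul_le_mul_left hm' hpos
  push_cast at hl1
  nlinarith [norm_nonneg N]

end Pool.Agent.Work.MP_8c604c_gt.Q
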